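import Mathlib

set_option autoImplicit false

/-!
# MP_ace2a1_co: two isomorphic chain-structured systems, each with exactly two 2-edges,
without a cooperative colouring

On the six vertices `0, …, 5` take the hyperedges `01, 34, 123, 450` (runs of the cyclic ordering
`0 1 2 3 4 5`) and the hyperedges `03, 14, 135, 024` (runs of the cyclic ordering `0 3 5 1 4 2`).
-/

namespace Pool.Agent.Results.MP_ace2a1_co.TwoTwoEdges

/-- The run of `l` cyclically consecutive vertices, starting at position `i`, of the cyclic ordering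
`σ 0, σ 1, …, σ (n - 1)`. -/
def run {n : ℕ} [NeZero n] {V : Type} [DecidableEq V] (σ : Fin n ≃ V) (i l : ℕ) : Finset V :=
  (Finset.range l).image (fun k => σ (Fin.ofNat n (i + k)))

/-- `H` is a chain-structured system: for some cyclic ordering of the vertices every hyperedge is a
nonempty run of cyclically consecutive vertices. -/
def ChainStructured {V : Type} [Fintype V] [DecidableEq V] (H : Finset (Finset V)) : Prop :=
  ∃ (n : ℕ) (_ : NeZero n) (σ : Fin n ≃ V), ∀ e ∈ H, ∃ i l : ℕ, 1 ≤ l ∧ l ≤ n ∧ e = run σ i l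

/-- Two hypergraphs on `V` are isomorphic if a permutation of `V` maps the hyperedge set of one onto
that of the other. -/
def Isomorphic {V : Type} [DecidableEq V] (H₁ H₂ : Finset (Finset V)) : Prop :=
  ∃ φ : V ≃ V, H₂ = H₁.image (fun e => e.image φ)

/-- Exactly two hyperedges have two vertices, and every other one has at least three. -/
def ExactlyTwoTwoEdges {V : Type} [DecidableEq V] (H : Finset (Finset V)) : Prop :=
  (H.filter (fun e => e.card = 2)).card = 2 ∧ ∀ e ∈ H, e.card = 2 ∨ 3 ≤ e.card

/-- `I` is independent in `H`: it contains no hyperedge. -/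
def Independent {V : Type} (H : Finset (Finset V)) (I : Finset V) : Prop :=
  ∀ e ∈ H, ¬ e ⊆ I

/-- `H₁` and `H₂` admit a cooperative colouring: an independent set of `H₁` and an independent set
of `H₂` cover all vertices. -/
def CooperativelyColourable {V : Type} [Fintype V] [DecidableEq V] (H₁ H₂ : Finset (Finset V)) :
    Prop :=
  ∃ I₁ I₂ : Finset V, Independent H₁ I₁ ∧ Independent H₂ I₂ ∧ I₁ ∪ I₂ = Finset.univ

/-- first system -/
def E₁ : Finset (Finset (Fin 6)) := {{0, 1}, {3, 4}, {1, 2, 3}, {4, 5, 0}}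

/-- second system -/
def E₂ : Finset (Finset (Fin 6)) := {{0, 3}, {1, 4}, {3, 5, 1}, {4, 2, 0}}

/-- the second cyclic ordering, as a permutation -/
def τ : Fin 6 ≃ Fin 6 where
  toFun := ![0, 3, 5, 1, 4, 2]
  invFun := ![0, 3, 5, 1, 4, 2]
  left_inv := by decide
  right_inv := by decide

theorem chain₁ : ChainStructured E₁ := by
  refine ⟨6, inferInstance, Equiv.refl _, ?_⟩
  intro e he
  simp only [E₁, Finset.mem_insert, Finset.mem_singleton] at he
  rcases he with rfl | rfl | rfl | rfl
  · exact ⟨0, 2, by decide, by decide, by decide⟩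
  · exact ⟨3, 2, by decide, by decide, by decide⟩
  · exact ⟨1, 3, by decide, by decide, by decide⟩
  · exact ⟨4, 3, by decide, by decide, by decide⟩

theorem chain₂ : ChainStructured E₂ := by
  refine ⟨6, inferInstance, τ, ?_⟩
  intro e he
  simp only [E₂, Finset.mem_insert, Finset.mem_singleton] at he
  rcases he with rfl | rfl | rfl | rfl
  · exact ⟨0, 2, by decide, by decide, by decide⟩
  · exact ⟨3, 2, by decide, by decide, by decide⟩
  · exact ⟨1, 3, by decide, by decide, by decide⟩
  · exact ⟨4, 3, by decide, by decide, by decide⟩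

theorem no_split : ∀ I : Finset (Fin 6), (∃ e ∈ E₁, e ⊆ I) ∨ ∃ e ∈ E₂, e ⊆ Iᶜ := by
  decide +kernel

/-- **The conclusion fails for two 2-edges.** -/
theorem result : ∃ (V : Type) (_ : Fintype V) (_ : DecidableEq V) (H₁ H₂ : Finset (Finset V)),
    ChainStructured H₁ ∧ ChainStructured H₂ ∧ Isomorphic H₁ H₂ ∧
    ExactlyTwoTwoEdges H₁ ∧ ExactlyTwoTwoEdges H₂ ∧ ¬ CooperativelyColourable H₁ H₂ := by
  refine ⟨Fin 6, inferInstance, inferInstance, E₁, E₂, chain₁, chain₂, ⟨τ, by decide +kernel⟩,
    ⟨by decide +kernel, by decide +kernel⟩, ⟨by decide +kernel, by decide +kernel⟩, ?_⟩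
  rintro ⟨I₁, I₂, h₁, h₂, hu⟩
  rcases no_split I₁ with ⟨e, he, hsub⟩ | ⟨e, he, hsub⟩
  · exact h₁ e he hsub
  · refine h₂ e he (hsub.trans ?_)
    intro x hx
    have hx' : x ∈ I₁ ∪ I₂ := by rw [hu]; exact Finset.mem_univ x
    rcases Finset.mem_union.1 hx' with h | h
    · exact absurd h (Finset.mem_compl.1 hx)
    · exact h

end Pool.Agent.Results.MP_ace2a1_co.TwoTwoEdges
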